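import Pool.Agent.Lib.MP_0a5adf_nt.EXR.Base

/-!
# Module FINALG: dyadic decomposition
-/

set_option autoImplicit false

namespace Pool.Agent.Lib.MP_0a5adf_nt.EXR.H35

open Pool.Agent.Lib.MP_0a5adf_nt.EXP

/-! ### Growth of `T` -/

theorem step (x : ℤ) : 2 * (|T x| + 1) ≤ 3 * (|x| + 1) := by
  unfold T
  split_ifs with h
  · rcases abs_cases (x / 2) with ⟨h1, _⟩ | ⟨h1, _⟩ <;> rcases abs_cases x with ⟨h2, _⟩ | ⟨h2, _⟩ <;>
      rw [h1, h2] <;> omega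
  · rcases abs_cases ((3 * x + 1) / 2) with ⟨h1, _⟩ | ⟨h1, _⟩ <;>
      rcases abs_cases x with ⟨h2, _⟩ | ⟨h2, _⟩ <;> rw [h1, h2] <;> omega

theorem iter (n : ℕ) (x : ℤ) : |((T^[n] x : ℤ) : ℝ)| + 1 ≤ (3 / 2 : ℝ) ^ n * (|(x : ℝ)| + 1) := by
  induction n with
  | zero => simp
  | succ n ih =>
    rw [Function.iterate_succ_apply', pow_succ]
    have h : (2 : ℝ) * (|((T (T^[n] x) : ℤ) : ℝ)| + 1) ≤ 3 * (|((T^[n] x : ℤ) : ℝ)| + 1) := by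
      exact_mod_cast step (T^[n] x)
    nlinarith

theorem three_half (n : ℕ) : (3 / 2 : ℝ) ^ n ≤ (2 : ℝ) ^ (3 / 5 * (n : ℝ)) := by
  have h1 : (3 / 2 : ℝ) ≤ (2 : ℝ) ^ (3 / 5 : ℝ) := by
    refine le_of_pow_le_pow_left₀ (n := 5) (by norm_num) (by positivity) ?_
    rw [← Real.rpow_natCast ((2 : ℝ) ^ (3 / 5 : ℝ)) 5, ← Real.rpow_mul (by norm_num)]
    norm_num
  rw [Real.rpow_mul (by norm_num), Real.rpow_natCast]
  exact pow_le_pow_left₀ (by norm_num) h1 n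

theorem lin_exp (δ : ℝ) (hδ : 0 < δ) : ∃ C : ℝ, 0 < C ∧ ∀ n : ℕ, (n : ℝ) + 2 ≤ C * 2 ^ (δ * n) := by
  have hl : 0 < δ * Real.log 2 := mul_pos hδ (Real.log_pos (by norm_num))
  refine ⟨2 + 1 / (δ * Real.log 2), by positivity, fun n => ?_⟩
  have h1 : (2 : ℝ) ^ (δ * n) = Real.exp (δ * Real.log 2 * n) := by
    rw [Real.rpow_def_of_pos (by norm_num)]
    congr 1; ring
  have h2 := Real.add_one_le_exp (δ * Real.log 2 * n)
  rw [h1]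
  have h3 : (n : ℝ) = 1 / (δ * Real.log 2) * (δ * Real.log 2 * n) := by
    field_simp
  have h4 : (0 : ℝ) ≤ δ * Real.log 2 * n := by positivity
  have h5 : (0 : ℝ) ≤ 1 / (δ * Real.log 2) := by positivity
  have h6 : (1 : ℝ) ≤ Real.exp (δ * Real.log 2 * n) := by linarith
  calc (n : ℝ) + 2 ≤ 1 / (δ * Real.log 2) * (δ * Real.log 2 * n) + 2 * Real.exp (δ * Real.log 2 * n) := by
        rw [← h3]; linarith
    _ ≤ 1 / (δ * Real.log 2) * Real.exp (δ * Real.log 2 * n) + 2 * Real.exp (δ * Real.log 2 * n) := by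
        gcongr
        linarith
    _ = (2 + 1 / (δ * Real.log 2)) * Real.exp (δ * Real.log 2 * n) := by ring

/-! ### The exponent -/

/-- `log_2 (1 + 6 * 9 ^ lam + 81 ^ lam)` -/
noncomputable def PP (lam : ℝ) : ℝ := Real.logb 2 (1 + 6 * (9 : ℝ) ^ lam + (81 : ℝ) ^ lam)

theorem PP_ge (lam : ℝ) (h : 0 ≤ lam) : 3 ≤ PP lam := by
  rw [PP, Real.le_logb_iff_rpow_le (by norm_num) (by positivity)]
  have h1 : (1 : ℝ) ≤ (9 : ℝ) ^ lam := Real.one_le_rpow (by norm_num) h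
  have h2 : (1 : ℝ) ≤ (81 : ℝ) ^ lam := Real.one_le_rpow (by norm_num) h
  norm_num
  linarith

theorem PP_le (lam : ℝ) (h : lam ≤ 1 / 3) : PP lam ≤ 5 := by
  rw [PP, Real.logb_le_iff_le_rpow (by norm_num) (by positivity)]
  have h1 : (9 : ℝ) ^ lam ≤ 3 := by
    calc (9 : ℝ) ^ lam ≤ (9 : ℝ) ^ (1 / 2 : ℝ) := Real.rpow_le_rpow_of_exponent_le (by norm_num) (by linarith)
      _ = 3 := by
        rw [show (9 : ℝ) = 3 ^ (2 : ℝ) by norm_num, ← Real.rpow_mul (by norm_num)]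
        norm_num
  have h2 : (81 : ℝ) ^ lam = (9 : ℝ) ^ lam * (9 : ℝ) ^ lam := by
    rw [show (81 : ℝ) = 9 * 9 by norm_num, Real.mul_rpow (by norm_num) (by norm_num)]
  rw [h2]
  norm_num
  have h3 : (0 : ℝ) < (9 : ℝ) ^ lam := by positivity
  nlinarith

theorem EE_eq (θ lam : ℝ) : EE θ lam = (1 - θ) / 4 - 4 * θ / 3 * lam + (3 + θ) / 12 * PP lam := rfl

theorem EE_nonneg (θ lam : ℝ) (h1 : 3 / 4 ≤ θ) (h2 : θ ≤ 1) (h3 : 0 ≤ lam) (h4 : lam ≤ 1 / 3) :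
    0 ≤ EE θ lam := by
  rw [EE_eq]
  have := PP_ge lam h3
  nlinarith

theorem EE_lt (θ lam : ℝ) (h1 : 3 / 4 ≤ θ) (h2 : θ ≤ 1) (h3 : 0 ≤ lam) (h4 : lam ≤ 1 / 3) :
    EE θ lam < 2 := by
  rw [EE_eq]
  have := PP_le lam h4
  nlinarith

theorem Psi_eq (lam : ℝ) : Psi lam = (2 : ℝ) ^ (PP lam - 4 * lam) := by
  have h0 : (0 : ℝ) < 1 + 6 * (9 : ℝ) ^ lam + (81 : ℝ) ^ lam := by positivity
  rw [Real.rpow_sub (by norm_num), PP, Real.rpow_logb (by norm_num) (by norm_num) h0, Psi]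
  congr 1
  rw [show (16 : ℝ) = 2 ^ (4 : ℝ) by norm_num, ← Real.rpow_mul (by norm_num)]

/-- the exponent of the main term -/
theorem main_exp (θ lam : ℝ) (h3 : 0 ≤ lam) (h4 : lam ≤ 1 / 3)
    (L m d : ℕ) (hm : (m : ℝ) ≤ θ * L / 3) (hd : (d : ℝ) ≤ (1 - θ) * L + 3) (hL : 3 * m + d = L) :
    (2 : ℝ) ^ ((lam + 1 / 4) * d) * Psi lam ^ (((4 * m + d : ℕ) : ℝ) / 4) ≤
      4 * (2 : ℝ) ^ (EE θ lam * L) := by
  rw [Psi_eq, ← Real.rpow_mul (by norm_num), ← Real.rpow_add (by norm_num)]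
  have e : (4 : ℝ) = 2 ^ (2 : ℝ) := by norm_num
  rw [e, ← Real.rpow_add (by norm_num)]
  refine Real.rpow_le_rpow_of_exponent_le (by norm_num) ?_
  have hp := PP_ge lam h3
  have hL' : (3 * m + d : ℝ) = L := by exact_mod_cast hL
  have hsum : (((4 * m + d : ℕ) : ℝ)) ≤ (1 + θ / 3) * L := by
    push_cast
    nlinarith
  rw [EE_eq]
  have e1 : (PP lam - 4 * lam) * (((4 * m + d : ℕ) : ℝ) / 4) ≤
      (PP lam - 4 * lam) * ((1 + θ / 3) * L / 4) := by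
    refine mul_le_mul_of_nonneg_left (by linarith) (by linarith)
  have e2 : (lam + 1 / 4) * (d : ℝ) ≤ (lam + 1 / 4) * ((1 - θ) * L + 3) :=
    mul_le_mul_of_nonneg_left hd (by linarith)
  have e3 : (lam + 1 / 4) * 3 ≤ 2 := by linarith
  nlinarith

/-! ### Finite sets of integers -/

theorem fin_abs (R : ℝ) : {x : ℤ | |(x : ℝ)| ≤ R}.Finite := by
  refine (Set.finite_Icc (-⌈R⌉) ⌈R⌉).subset fun x hx => ?_
  have h1 : |(x : ℝ)| ≤ ⌈R⌉ := le_trans hx (Int.le_ceil R)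
  have h2 := abs_le.1 h1
  exact ⟨by exact_mod_cast h2.1, by exact_mod_cast h2.2⟩

theorem card_abs (n : ℕ) : ({x : ℤ | |(x : ℝ)| ≤ n}.ncard : ℝ) ≤ 2 * n + 1 := by
  have h : {x : ℤ | |(x : ℝ)| ≤ n} ⊆ (Finset.Icc (-(n : ℤ)) n : Set ℤ) := by
    intro x hx
    have h2 := abs_le.1 (show |(x : ℝ)| ≤ n from hx)
    rw [Finset.coe_Icc]
    exact ⟨by exact_mod_cast h2.1, by exact_mod_cast h2.2⟩
  have h3 := Set.ncard_le_ncard h (Finset.finite_toSet _)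
  rw [Set.ncard_coe_finset, Int.card_Icc] at h3
  have h4 : ((n : ℤ) + 1 - -(n : ℤ)).toNat = 2 * n + 1 := by omega
  rw [h4] at h3
  exact_mod_cast h3

/-! ### The two alternatives -/

/-- the excursion set -/
def XS (L : ℕ) (s : ℝ) : Set ℤ :=
  {x : ℤ | |x| ≤ 2 ^ (L + 1) ∧ ∃ k ≤ L + 1, (2 : ℝ) ^ (s * L) / 2 ≤ |((T^[k] x : ℤ) : ℝ)|}

theorem alt (θ β s : ℝ) (h1 : 3 / 4 ≤ θ) (h2 : θ ≤ 1) (hβ : β = s + θ / 5) (L : ℕ)
    (hs : 0 < s) (hsL : 1 ≤ s * L) (x : ℤ) (hx1 : (2 : ℝ) ^ L ≤ |(x : ℝ)|)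
    (hx2 : |(x : ℝ)| ≤ (2 : ℝ) ^ (L + 1)) (hb : ¬ GoodG θ β x) :
    x ∈ SG ⌊θ * L / 3⌋₊ (L - 3 * ⌊θ * L / 3⌋₊) 1 ∪ XS L s := by
  have hx0 : (0 : ℝ) < |(x : ℝ)| := lt_of_lt_of_le (by positivity) hx1
  have hθL : 0 ≤ θ * L / 3 := by positivity
  have hLlog : (L : ℝ) ≤ Real.logb 2 |(x : ℝ)| := by
    rw [Real.le_logb_iff_rpow_le (by norm_num) hx0, Real.rpow_natCast]
    exact hx1
  have hm : ((⌊θ * L / 3⌋₊ : ℕ) : ℝ) ≤ θ * L / 3 := Nat.floor_le hθL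
  set m := ⌊θ * L / 3⌋₊ with hmdef
  have h3m : 3 * m ≤ L := by
    have : (3 : ℝ) * m ≤ L := by nlinarith [(Nat.cast_nonneg L : (0 : ℝ) ≤ L)]
    exact_mod_cast this
  have hxup : |x| ≤ 2 ^ (L + 1) := by exact_mod_cast hx2
  have hpos : ∀ t : ℝ, 0 ≤ t → (2 : ℝ) ^ (t * L) ≤ |(x : ℝ)| ^ t := by
    intro t ht
    rw [mul_comm, Real.rpow_mul (by norm_num), Real.rpow_natCast]
    exact Real.rpow_le_rpow (by positivity) hx1 ht
  by_cases hA : ∀ k : ℕ, (k : ℝ) ≤ (1 + θ / 3) * L → |(x : ℝ)| ^ θ ≤ |((T^[k] x : ℤ) : ℝ)|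
  · left
    refine ⟨?_, fun i _ hi2 => ?_⟩
    · have : 3 * m + (L - 3 * m) + 1 = L + 1 := by omega
      rw [this]; exact hxup
    · have h5 : i * m + (L - 3 * m) ≤ L + m := by
        have : i * m ≤ 4 * m := Nat.mul_le_mul_right m hi2
        omega
      have h6 := hA (i * m + (L - 3 * m)) (by
        have : (((i * m + (L - 3 * m) : ℕ)) : ℝ) ≤ ((L + m : ℕ) : ℝ) := by exact_mod_cast h5
        push_cast at this ⊢
        nlinarith)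
      have h7 : (2 : ℝ) ^ (3 * m) ≤ |((T^[i * m + (L - 3 * m)] x : ℤ) : ℝ)| := by
        refine le_trans ?_ (le_trans (hpos θ (by linarith)) h6)
        rw [← Real.rpow_natCast]
        refine Real.rpow_le_rpow_of_exponent_le (by norm_num) ?_
        push_cast
        linarith
      have h8 : (2 : ℤ) ^ (3 * m) ≤ |T^[i * m + (L - 3 * m)] x| := by exact_mod_cast h7
      have h9 : 0 ≤ |T^[i * m + (L - 3 * m)] x| := abs_nonneg _
      linarith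
  · right
    refine ⟨hxup, ?_⟩
    push Not at hA
    obtain ⟨k, hk1, hk2⟩ := hA
    have hj : ∃ j ≤ k, |(x : ℝ)| ^ β < |((T^[j] x : ℤ) : ℝ)| := by
      by_contra hno
      push Not at hno
      exact hb ⟨k, hk1.trans (mul_le_mul_of_nonneg_left hLlog (by linarith)), hk2, hno⟩
    obtain ⟨j, hj1, hj2⟩ := hj
    have hβ0 : 0 ≤ β := by rw [hβ]; linarith
    have hj3 : (2 : ℝ) ^ (β * L) ≤ |((T^[j] x : ℤ) : ℝ)| := (hpos β hβ0).trans hj2.le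
    have h2s : (2 : ℝ) ≤ (2 : ℝ) ^ (s * L) := by
      calc (2 : ℝ) = 2 ^ (1 : ℝ) := by norm_num
        _ ≤ _ := Real.rpow_le_rpow_of_exponent_le (by norm_num) hsL
    by_cases hjL : j ≤ L
    · refine ⟨j, by omega, le_trans ?_ hj3⟩
      have h10 : (2 : ℝ) ^ (s * L) ≤ (2 : ℝ) ^ (β * L) := by
        refine Real.rpow_le_rpow_of_exponent_le (by norm_num) ?_
        refine mul_le_mul_of_nonneg_right ?_ (Nat.cast_nonneg L)
        rw [hβ]; linarith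
      linarith
    · refine ⟨L, by omega, ?_⟩
      obtain ⟨n, rfl⟩ : ∃ n, j = n + L := ⟨j - L, by omega⟩
      rw [Function.iterate_add_apply] at hj3
      have h10 := iter n (T^[L] x)
      have h11 := three_half n
      have hn : (n : ℝ) ≤ θ / 3 * L := by
        have h12 : ((n + L : ℕ) : ℝ) ≤ k := by exact_mod_cast hj1
        push_cast at h12
        linarith
      have h13 : (2 : ℝ) ^ (3 / 5 * (n : ℝ)) ≤ (2 : ℝ) ^ (θ / 5 * L) :=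
        Real.rpow_le_rpow_of_exponent_le (by norm_num) (by linarith)
      have h14 : (2 : ℝ) ^ (β * L) = (2 : ℝ) ^ (θ / 5 * L) * (2 : ℝ) ^ (s * L) := by
        rw [← Real.rpow_add (by norm_num), hβ]
        congr 1; ring
      have h15 : (0 : ℝ) < (2 : ℝ) ^ (θ / 5 * (L : ℝ)) := by positivity
      have h16 : (0 : ℝ) ≤ |((T^[L] x : ℤ) : ℝ)| + 1 := by positivity
      have h17 : (2 : ℝ) ^ (θ / 5 * (L : ℝ)) * (2 : ℝ) ^ (s * L) ≤
          (2 : ℝ) ^ (θ / 5 * (L : ℝ)) * (|((T^[L] x : ℤ) : ℝ)| + 1) := by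
        rw [← h14]
        calc (2 : ℝ) ^ (β * L) ≤ |((T^[n] (T^[L] x) : ℤ) : ℝ)| + 1 := by linarith
          _ ≤ (3 / 2 : ℝ) ^ n * (|((T^[L] x : ℤ) : ℝ)| + 1) := h10
          _ ≤ (2 : ℝ) ^ (θ / 5 * (L : ℝ)) * (|((T^[L] x : ℤ) : ℝ)| + 1) :=
            mul_le_mul_of_nonneg_right (h11.trans h13) h16
      have h18 := le_of_mul_le_mul_left h17 h15
      linarith

/-! ### Counting -/

theorem sg_fin (m d c : ℕ) : (SG m d c).Finite := by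
  refine (fin_abs ((2 : ℝ) ^ (3 * m + d + c))).subset fun x hx => ?_
  exact_mod_cast hx.1

theorem xs_fin (L : ℕ) (s : ℝ) : (XS L s).Finite := by
  refine (fin_abs ((2 : ℝ) ^ (L + 1))).subset fun x hx => ?_
  exact_mod_cast hx.1

theorem xs_card (CE : ℝ) (hCE : ∀ (N : ℕ) (Y : ℝ), 0 < Y →
    ({x : ℤ | |x| ≤ 2 ^ N ∧ ∃ k ≤ N, Y ≤ |((T^[k] x : ℤ) : ℝ)|}.ncard : ℝ) * Y ≤
      CE * (N + 1) ^ 2 * 4 ^ N) (A ε s : ℝ)
    (hA : ∀ n : ℕ, (n : ℝ) + 2 ≤ A * 2 ^ (ε / 2 * n)) (L : ℕ) :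
    ((XS L s).ncard : ℝ) ≤ 8 * |CE| * A ^ 2 * 2 ^ ((2 - s + ε) * L) := by
  have hY : (0 : ℝ) < (2 : ℝ) ^ (s * L) / 2 := by positivity
  have h := hCE (L + 1) _ hY
  change ((XS L s).ncard : ℝ) * _ ≤ _ at h
  have h1 : CE * (((L + 1 : ℕ) : ℝ) + 1) ^ 2 * 4 ^ (L + 1) ≤
      |CE| * (A * 2 ^ (ε / 2 * L)) ^ 2 * 4 ^ (L + 1) := by
    have h2 : (((L + 1 : ℕ) : ℝ) + 1) = (L : ℝ) + 2 := by push_cast; ring
    rw [h2]
    have h3 : ((L : ℝ) + 2) ^ 2 ≤ (A * 2 ^ (ε / 2 * L)) ^ 2 :=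
      pow_le_pow_left₀ (by positivity) (hA L) 2
    have h4 := le_abs_self CE
    gcongr
  have h5 : |CE| * (A * (2 : ℝ) ^ (ε / 2 * (L : ℝ))) ^ 2 * 4 ^ (L + 1) =
      8 * |CE| * A ^ 2 * 2 ^ ((2 - s + ε) * L) * ((2 : ℝ) ^ (s * L) / 2) := by
    have e1 : (4 : ℝ) ^ (L + 1) = 4 * (2 : ℝ) ^ (2 * (L : ℝ)) := by
      rw [pow_succ, Real.rpow_mul (by norm_num), Real.rpow_natCast]
      norm_num
      ring
    have e2 : ((2 : ℝ) ^ (ε / 2 * (L : ℝ))) ^ 2 = (2 : ℝ) ^ (ε * L) := by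
      rw [← Real.rpow_natCast, ← Real.rpow_mul (by norm_num)]
      congr 1; push_cast; ring
    have e3 : (2 : ℝ) ^ ((2 - s + ε) * (L : ℝ)) * (2 : ℝ) ^ (s * L) =
        (2 : ℝ) ^ (ε * (L : ℝ)) * (2 : ℝ) ^ (2 * (L : ℝ)) := by
      rw [← Real.rpow_add (by norm_num), ← Real.rpow_add (by norm_num)]
      congr 1; ring
    rw [mul_pow, e1, e2]
    linear_combination (-4 * |CE| * A ^ 2) * e3
  refine le_of_mul_le_mul_right (h.trans (h1.trans_eq h5)) hY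

/-- Module FINALG. -/
theorem finalg (hM : MainGStatement) (hE : ExcStatement) : FinalGStatement := by
  intro θ lam ε h1 h2 h3 h4 hε
  set E := EE θ lam with hEdef
  have hE0 : 0 ≤ E := EE_nonneg θ lam h1 h2 h3 h4
  have hE2 : E < 2 := EE_lt θ lam h1 h2 h3 h4
  obtain ⟨CM, hCM⟩ := hM 1 (ε / 2) lam (half_pos hε) h3 h4
  obtain ⟨CE, hCE⟩ := hE
  obtain ⟨A, hA0, hA⟩ := lin_exp (ε / 2) (half_pos hε)
  set s : ℝ := 2 - E + ε with hs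
  have hs0 : 0 < s := by rw [hs]; linarith
  set β : ℝ := 2 - E + θ / 5 + ε with hβ
  have hβs : β = s + θ / 5 := by rw [hβ, hs]; ring
  set L0 : ℕ := ⌈1 / s⌉₊ with hL0
  set K : ℝ := 4 * |CM| + 8 * |CE| * A ^ 2 + (2 * 2 ^ (L0 + 1) + 1) with hK
  have hK0 : 0 ≤ K := by positivity
  set t : ℝ := E + ε / 2 with ht
  have ht0 : 0 ≤ t := by rw [ht]; linarith
  -- one dyadic block
  have hD : ∀ L : ℕ, ({x : ℤ | (2 : ℝ) ^ L ≤ |(x : ℝ)| ∧ |(x : ℝ)| < (2 : ℝ) ^ (L + 1) ∧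
      ¬ GoodG θ β x}.ncard : ℝ) ≤ K * 2 ^ (t * L) := by
    intro L
    have h2t : (1 : ℝ) ≤ (2 : ℝ) ^ (t * L) := Real.one_le_rpow (by norm_num) (by positivity)
    by_cases hL : L < L0
    · have hsub : {x : ℤ | (2 : ℝ) ^ L ≤ |(x : ℝ)| ∧ |(x : ℝ)| < (2 : ℝ) ^ (L + 1) ∧
          ¬ GoodG θ β x} ⊆ {x : ℤ | |(x : ℝ)| ≤ ((2 ^ (L0 + 1) : ℕ) : ℝ)} := by
        rintro x ⟨_, hx, _⟩
        refine hx.le.trans ?_
        push_cast
        exact pow_le_pow_right₀ (by norm_num) (by omega)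
      have h5 := Set.ncard_le_ncard hsub (fin_abs _)
      have h6 := card_abs (2 ^ (L0 + 1))
      have h7 : (({x : ℤ | (2 : ℝ) ^ L ≤ |(x : ℝ)| ∧ |(x : ℝ)| < (2 : ℝ) ^ (L + 1) ∧
          ¬ GoodG θ β x}.ncard : ℕ) : ℝ) ≤ 2 * 2 ^ (L0 + 1) + 1 := by
        refine le_trans (by exact_mod_cast h5) (h6.trans_eq ?_)
        push_cast; ring
      refine h7.trans ?_
      calc (2 * 2 ^ (L0 + 1) + 1 : ℝ) ≤ K := by
            rw [hK]
            have : 0 ≤ 4 * |CM| + 8 * |CE| * A ^ 2 := by positivity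
            linarith
        _ ≤ K * 2 ^ (t * L) := le_mul_of_one_le_right hK0 h2t
    · have hL : L0 ≤ L := not_lt.1 hL
      have hsL : 1 ≤ s * L := by
        have h5 : 1 / s ≤ L := (Nat.le_ceil _).trans (by exact_mod_cast hL)
        rw [div_le_iff₀ hs0] at h5
        linarith
      set m := ⌊θ * L / 3⌋₊ with hm
      have hθL : 0 ≤ θ * (L : ℝ) / 3 := by positivity
      have hm1 : (m : ℝ) ≤ θ * L / 3 := Nat.floor_le hθL
      have hm2 : θ * L / 3 < m + 1 := Nat.lt_floor_add_one _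
      have h3m : 3 * m ≤ L := by
        have : (3 : ℝ) * m ≤ L := by nlinarith [(Nat.cast_nonneg L : (0 : ℝ) ≤ L)]
        exact_mod_cast this
      set d := L - 3 * m with hd
      have hLd : 3 * m + d = L := by omega
      have hLd' : (3 * m + d : ℝ) = L := by exact_mod_cast hLd
      have hd1 : (d : ℝ) ≤ (1 - θ) * L + 3 := by linarith
      have hLnn : (0 : ℝ) ≤ L := Nat.cast_nonneg L
      have hd2 : d ≤ m + 4 := by
        have : (d : ℝ) < m + 4 := by nlinarith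
        have : d < m + 4 := by exact_mod_cast this
        omega
      have hsub : {x : ℤ | (2 : ℝ) ^ L ≤ |(x : ℝ)| ∧ |(x : ℝ)| < (2 : ℝ) ^ (L + 1) ∧
          ¬ GoodG θ β x} ⊆ SG m d 1 ∪ XS L s := by
        rintro x ⟨hx1, hx2, hx3⟩
        exact alt θ β s h1 h2 hβs L hs0 hsL x hx1 hx2.le hx3
      have h5 := Set.ncard_le_ncard hsub ((sg_fin _ _ _).union (xs_fin _ _))
      have h6 : ((SG m d 1 ∪ XS L s).ncard : ℝ) ≤ (SG m d 1).ncard + (XS L s).ncard := by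
        exact_mod_cast Set.ncard_union_le _ _
      have h7 : ((SG m d 1).ncard : ℝ) ≤ 4 * |CM| * 2 ^ (t * L) := by
        refine (hCM m d hd2).trans ?_
        have e1 := main_exp θ lam h3 h4 L m d hm1 hd1 hLd
        have e2 : (2 : ℝ) ^ (ε / 2 * m) ≤ 2 ^ (ε / 2 * L) := by
          refine Real.rpow_le_rpow_of_exponent_le (by norm_num) ?_
          refine mul_le_mul_of_nonneg_left ?_ (by linarith)
          have : m ≤ L := by omega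
          exact_mod_cast this
        have hPsi : 0 ≤ Psi lam ^ (((4 * m + d : ℕ) : ℝ) / 4) := by
          rw [Psi_eq]; positivity
        have e3 : (2 : ℝ) ^ (t * (L : ℝ)) = 2 ^ (ε / 2 * (L : ℝ)) * 2 ^ (E * (L : ℝ)) := by
          rw [← Real.rpow_add (by norm_num), ht]
          congr 1; ring
        calc CM * 2 ^ (ε / 2 * (m : ℝ)) * 2 ^ ((lam + 1 / 4) * d) *
              Psi lam ^ (((4 * m + d : ℕ) : ℝ) / 4)
            ≤ |CM| * 2 ^ (ε / 2 * (m : ℝ)) * 2 ^ ((lam + 1 / 4) * d) *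
              Psi lam ^ (((4 * m + d : ℕ) : ℝ) / 4) := by
              gcongr
              exact le_abs_self CM
          _ = |CM| * 2 ^ (ε / 2 * (m : ℝ)) * (2 ^ ((lam + 1 / 4) * d) *
              Psi lam ^ (((4 * m + d : ℕ) : ℝ) / 4)) := by ring
          _ ≤ |CM| * 2 ^ (ε / 2 * (L : ℝ)) * (4 * 2 ^ (E * L)) := by
              gcongr
          _ = 4 * |CM| * 2 ^ (t * L) := by rw [e3]; ring
      have h8 : ((XS L s).ncard : ℝ) ≤ 8 * |CE| * A ^ 2 * 2 ^ (t * L) := by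
        refine (xs_card CE hCE A ε s hA L).trans ?_
        have : (2 : ℝ) ^ ((2 - s + ε) * (L : ℝ)) ≤ 2 ^ (t * (L : ℝ)) := by
          refine Real.rpow_le_rpow_of_exponent_le (by norm_num) ?_
          refine mul_le_mul_of_nonneg_right ?_ hLnn
          rw [hs, ht]; linarith
        gcongr
      have h9 : (({x : ℤ | (2 : ℝ) ^ L ≤ |(x : ℝ)| ∧ |(x : ℝ)| < (2 : ℝ) ^ (L + 1) ∧
          ¬ GoodG θ β x}.ncard : ℕ) : ℝ) ≤ ((SG m d 1 ∪ XS L s).ncard : ℝ) := by exact_mod_cast h5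
      refine h9.trans (h6.trans ?_)
      have h10 : 0 ≤ (2 * 2 ^ (L0 + 1) + 1 : ℝ) * 2 ^ (t * L) := by positivity
      rw [hK]
      linarith
  -- induction
  have hB : ∀ n : ℕ, ({x : ℤ | |(x : ℝ)| < (2 : ℝ) ^ n ∧ ¬ GoodG θ β x}.ncard : ℝ) ≤
      1 + n * (K * 2 ^ (t * n)) := by
    intro n
    induction n with
    | zero =>
      have hsub : {x : ℤ | |(x : ℝ)| < (2 : ℝ) ^ 0 ∧ ¬ GoodG θ β x} ⊆ {0} := by
        rintro x ⟨hx, _⟩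
        rw [pow_zero] at hx
        have : |x| < 1 := by exact_mod_cast hx
        exact Int.abs_lt_one_iff.1 this
      have := Set.ncard_le_ncard hsub (Set.finite_singleton _)
      rw [Set.ncard_singleton] at this
      simp only [Nat.cast_zero, zero_mul, add_zero]
      exact_mod_cast this
    | succ n ih =>
      have hsub : {x : ℤ | |(x : ℝ)| < (2 : ℝ) ^ (n + 1) ∧ ¬ GoodG θ β x} ⊆
          {x : ℤ | |(x : ℝ)| < (2 : ℝ) ^ n ∧ ¬ GoodG θ β x} ∪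
          {x : ℤ | (2 : ℝ) ^ n ≤ |(x : ℝ)| ∧ |(x : ℝ)| < (2 : ℝ) ^ (n + 1) ∧ ¬ GoodG θ β x} := by
        rintro x ⟨hx, hx2⟩
        by_cases h : |(x : ℝ)| < (2 : ℝ) ^ n
        · exact Or.inl ⟨h, hx2⟩
        · exact Or.inr ⟨not_lt.1 h, hx, hx2⟩
      have f1 : {x : ℤ | |(x : ℝ)| < (2 : ℝ) ^ n ∧ ¬ GoodG θ β x}.Finite :=
        (fin_abs ((2 : ℝ) ^ n)).subset fun x hx => hx.1.le
      have f2 : {x : ℤ | (2 : ℝ) ^ n ≤ |(x : ℝ)| ∧ |(x : ℝ)| < (2 : ℝ) ^ (n + 1) ∧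
          ¬ GoodG θ β x}.Finite := (fin_abs ((2 : ℝ) ^ (n + 1))).subset fun x hx => hx.2.1.le
      have h5 := Set.ncard_le_ncard hsub (f1.union f2)
      have h6 := Set.ncard_union_le {x : ℤ | |(x : ℝ)| < (2 : ℝ) ^ n ∧ ¬ GoodG θ β x}
          {x : ℤ | (2 : ℝ) ^ n ≤ |(x : ℝ)| ∧ |(x : ℝ)| < (2 : ℝ) ^ (n + 1) ∧ ¬ GoodG θ β x}
      have h7 : (({x : ℤ | |(x : ℝ)| < (2 : ℝ) ^ (n + 1) ∧ ¬ GoodG θ β x}.ncard : ℕ) : ℝ) ≤
          (({x : ℤ | |(x : ℝ)| < (2 : ℝ) ^ n ∧ ¬ GoodG θ β x}.ncard : ℕ) : ℝ) +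
          (({x : ℤ | (2 : ℝ) ^ n ≤ |(x : ℝ)| ∧ |(x : ℝ)| < (2 : ℝ) ^ (n + 1) ∧
            ¬ GoodG θ β x}.ncard : ℕ) : ℝ) := by
        exact_mod_cast h5.trans h6
      have h8 : (2 : ℝ) ^ (t * n) ≤ 2 ^ (t * ((n + 1 : ℕ) : ℝ)) := by
        refine Real.rpow_le_rpow_of_exponent_le (by norm_num) ?_
        push_cast
        linarith
      have h9 : K * (2 : ℝ) ^ (t * n) ≤ K * 2 ^ (t * ((n + 1 : ℕ) : ℝ)) :=
        mul_le_mul_of_nonneg_left h8 hK0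
      have h10 : (n : ℝ) * (K * (2 : ℝ) ^ (t * n)) ≤ n * (K * 2 ^ (t * ((n + 1 : ℕ) : ℝ))) :=
        mul_le_mul_of_nonneg_left h9 (Nat.cast_nonneg n)
      have h11 := hD n
      push_cast at h9 h10 ⊢
      linarith
  -- conclusion
  refine ⟨1 + A * K * 2 ^ t, fun X hX => ?_⟩
  have hX0 : 0 < X := by linarith
  have hlog : 0 ≤ Real.logb 2 X := Real.logb_nonneg (by norm_num) hX
  set n := ⌊Real.logb 2 X⌋₊ with hn
  have hn1 : (2 : ℝ) ^ n ≤ X := by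
    have h5 : (n : ℝ) ≤ Real.logb 2 X := Nat.floor_le hlog
    rw [Real.le_logb_iff_rpow_le (by norm_num) hX0, Real.rpow_natCast] at h5
    exact h5
  have hn2 : X < (2 : ℝ) ^ (n + 1) := by
    have h5 : Real.logb 2 X < n + 1 := Nat.lt_floor_add_one _
    rw [Real.logb_lt_iff_lt_rpow (by norm_num) hX0] at h5
    calc X < (2 : ℝ) ^ ((n : ℝ) + 1) := h5
      _ = (2 : ℝ) ^ (n + 1) := by
        rw [← Real.rpow_natCast]; push_cast; rfl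
  have hsub : {x : ℤ | |(x : ℝ)| ≤ X ∧ ¬ GoodG θ β x} ⊆
      {x : ℤ | |(x : ℝ)| < (2 : ℝ) ^ (n + 1) ∧ ¬ GoodG θ β x} :=
    fun x hx => ⟨lt_of_le_of_lt hx.1 hn2, hx.2⟩
  have h5 := Set.ncard_le_ncard hsub ((fin_abs ((2 : ℝ) ^ (n + 1))).subset fun x hx => hx.1.le)
  have h6 := hB (n + 1)
  have h7 : ((({x : ℤ | |(x : ℝ)| ≤ X ∧ ¬ GoodG θ β x}).ncard : ℕ) : ℝ) ≤
      1 + ((n + 1 : ℕ) : ℝ) * (K * 2 ^ (t * ((n + 1 : ℕ) : ℝ))) :=
    le_trans (by exact_mod_cast h5) h6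
  refine h7.trans ?_
  have h8 : ((n + 1 : ℕ) : ℝ) ≤ A * 2 ^ (ε / 2 * n) := by
    have := hA n
    push_cast
    linarith
  have h9 : (2 : ℝ) ^ (t * ((n + 1 : ℕ) : ℝ)) = 2 ^ t * 2 ^ (t * (n : ℝ)) := by
    rw [← Real.rpow_add (by norm_num)]
    congr 1; push_cast; ring
  have h10 : (2 : ℝ) ^ (ε / 2 * (n : ℝ)) * 2 ^ (t * (n : ℝ)) ≤ X ^ (E + ε) := by
    rw [← Real.rpow_add (by norm_num)]
    have e1 : ε / 2 * (n : ℝ) + t * n = n * (E + ε) := by rw [ht]; ring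
    rw [e1, Real.rpow_mul (by norm_num), Real.rpow_natCast]
    exact Real.rpow_le_rpow (by positivity) hn1 (by linarith)
  have h11 : (1 : ℝ) ≤ X ^ (E + ε) := Real.one_le_rpow hX (by linarith)
  calc 1 + ((n + 1 : ℕ) : ℝ) * (K * 2 ^ (t * ((n + 1 : ℕ) : ℝ)))
      ≤ 1 + (A * 2 ^ (ε / 2 * (n : ℝ))) * (K * (2 ^ t * 2 ^ (t * (n : ℝ)))) := by
        rw [h9]
        gcongr
    _ = 1 + A * K * 2 ^ t * ((2 : ℝ) ^ (ε / 2 * (n : ℝ)) * 2 ^ (t * (n : ℝ))) := by ring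
    _ ≤ X ^ (E + ε) + A * K * 2 ^ t * X ^ (E + ε) := by
        gcongr
    _ = (1 + A * K * 2 ^ t) * X ^ (E + ε) := by ring

end Pool.Agent.Lib.MP_0a5adf_nt.EXR.H35
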